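import Pool.Prelude.Def_F_c31e40fa
import Pool.Agent.R240.Alm2

set_option autoImplicit false

open Filter Topology MeasureTheory Set N62a1eb23

namespace Pool.Agent.Results.MP_fcb70f_an.AlmostAllDegreesLC

/-- `K` is locally connected at `c`: the relatively open connected subsets of `K` that contain `c`
form a basis of neighbourhoods. -/
def LocallyConnectedAt (K : Set ℂ) (c : ℂ) : Prop :=
  ∀ U ∈ 𝓝 c, ∃ V ⊆ U, IsOpen V ∧ c ∈ V ∧ IsPreconnected (K ∩ V)

/-- The powers `n` for which `c` belongs to the Multibrot set of power `n`, and this set is not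
locally connected at `c`. -/
def exceptional (c : ℂ) : Set ℕ :=
  {n | c ∈ multibrotSet n ∧ ¬ LocallyConnectedAt (multibrotSet n) c}

theorem sub (c : ℂ) : exceptional c ⊆ Pool.Agent.R240.Alm.bad c :=
  fun _ hn => Pool.Agent.R240.Alm.E_sub c hn.2

/-- **At a fixed parameter `c` almost all Multibrot sets are locally connected.** -/
theorem result :
    -- location of the parameters at which local connectivity can fail
    (∀ c : ℂ, ∀ n ∈ exceptional c, 2 ≤ n ∧ c ≠ 0 ∧ |Real.log ‖c‖| ≤ 200 * Real.log n / n ∧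
      (‖c‖ = 1 → ‖c ^ (3 * (n - 1)) - 1‖ ≤ 200 * Real.log n / n)) ∧
    -- only finitely many exceptional powers off the unit circle
    (∀ c : ℂ, ‖c‖ ≠ 1 → (exceptional c).Finite) ∧
    -- if `c` is not a root of unity, the gaps between the exceptional powers tend to infinity, and
    -- they have density zero
    (∀ c : ℂ, (∀ k : ℕ, 0 < k → c ^ k ≠ 1) →
      (∀ Q : ℕ, {n | n ∈ exceptional c ∧ ∃ m ∈ exceptional c, n < m ∧ m ≤ n + Q}.Finite) ∧
      Tendsto (fun N : ℕ => ((exceptional c ∩ Set.Iio N).ncard : ℝ) / N) atTop (𝓝 0)) ∧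
    -- if `c` is a root of unity, all but finitely many exceptional powers are resonant
    (∀ (c : ℂ) (k : ℕ), 0 < k → c ^ k = 1 →
      {n | n ∈ exceptional c ∧ c ^ (3 * (n - 1)) ≠ 1}.Finite) ∧
    -- for every power the exceptional parameters of the unit circle have small length
    (∀ n : ℕ, 2 ≤ n → volume {θ : ℝ | θ ∈ Set.Icc 0 (2 * Real.pi) ∧
      n ∈ exceptional (Complex.exp (θ * Complex.I))} ≤ ENNReal.ofReal (12000 * Real.log n / n)) ∧
    -- at almost every `c` of the unit circle there are few exceptional powers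
    (∀ s : ℝ, 2 < s → ∀ᵐ θ : ℝ, ∃ K : ℝ, ∀ N : ℕ, 2 ≤ N →
      ((exceptional (Complex.exp (θ * Complex.I)) ∩ Set.Iic N).ncard : ℝ) ≤
        K * Real.log N ^ s) := by
  refine ⟨?_, ?_, ?_, ?_, ?_, ?_⟩
  · intro c n hn
    have h := sub c hn
    exact ⟨h.1, Pool.Agent.R240.Alm.ne_zero_of_bad h, Pool.Agent.R240.Alm.log_norm_le h,
      fun hc => Pool.Agent.R240.Alm.norm_cube_le hc h⟩
  · intro c hc
    exact (Pool.Agent.R240.Alm.bad_finite hc).subset (sub c)
  · intro c hc
    refine ⟨fun Q => (Pool.Agent.R240.Alm.gaps hc Q).subset ?_, ?_⟩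
    · rintro n ⟨h1, m, h2, h3⟩
      exact ⟨sub c h1, m, sub c h2, h3⟩
    · apply squeeze_zero (fun N => by positivity) _ (Pool.Agent.R240.Alm.density hc)
      intro N
      have h1 : (exceptional c ∩ Set.Iio N).ncard ≤
          (Pool.Agent.R240.Alm.bad c ∩ Set.Iio N).ncard :=
        Set.ncard_le_ncard (inter_subset_inter_left _ (sub c))
          ((finite_Iio N).subset inter_subset_right)
      gcongr
  · intro c k hk hck
    apply (Pool.Agent.R240.Alm.bad_root hk hck).subset
    rintro n ⟨h1, h2⟩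
    exact ⟨sub c h1, h2⟩
  · intro n hn
    refine (measure_mono ?_).trans (Pool.Agent.R240.Alm.volume_bad hn)
    rintro θ ⟨h1, h2⟩
    exact ⟨h1, sub _ h2⟩
  · intro s hs
    filter_upwards [Pool.Agent.R240.Alm.ae_count hs] with θ hθ
    obtain ⟨K, hK⟩ := hθ
    refine ⟨K, fun N hN => le_trans ?_ (hK N hN)⟩
    have h1 : (exceptional (Complex.exp (θ * Complex.I)) ∩ Set.Iic N).ncard ≤
        (Pool.Agent.R240.Alm.bad (Complex.exp (θ * Complex.I)) ∩ Set.Iic N).ncard :=
      Set.ncard_le_ncard (inter_subset_inter_left _ (sub _))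
        ((finite_Iic N).subset inter_subset_right)
    exact_mod_cast h1

end Pool.Agent.Results.MP_fcb70f_an.AlmostAllDegreesLC
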