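import Mathlib
import Pool.Prelude.Def_F_c31e40fa
import Pool.Agent.R240.ExtFin

set_option autoImplicit false

open N62a1eb23 Pool.Agent.H713R2

namespace Pool.Agent.Results.MP_fcb70f_an.ExteriorMaps

/-- **The exterior maps of all Multibrot sets, uniformly up to the boundary and in the degree.** -/
theorem result (n : ℕ) (hn : 2 ≤ n) :
    (∃ ψ : ℂ → ℂ, IsExteriorMap (multibrotSet n) ψ) ∧
    ∀ ψ : ℂ → ℂ, IsExteriorMap (multibrotSet n) ψ →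
      -- uniformly up to the boundary, `ψ` is within `(log n + 8) / (n - 1)` of the identity
      (∀ w : ℂ, 1 < ‖w‖ → ‖ψ w - w‖ ≤ (Real.log n + 8) / (n - 1) * ‖w‖) ∧
      -- and this is optimal up to `O(1 / n)`
      (∃ w : ℂ, 1 < ‖w‖ ∧
        (Real.log n / (n - 1) - (Real.log n / (n - 1)) ^ 2 / 2) * ‖w‖ ≤ ‖ψ w - w‖) ∧
      -- the shape at the scale `1 / n`: in the coordinate `c ^ (n - 1)` the exterior map is a
      -- translation up to `O(log n / n)`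
      (∀ w : ℂ, 1 < ‖w‖ →
        ‖ψ w ^ (n - 1) + 1 - w ^ (n - 1)‖ ≤ 3 * ((Real.log n + 5) / (n - 1)) *
          (1 + 3 * Real.log (‖w‖ ^ (n ^ 2 - 1) / (‖w‖ ^ (n ^ 2 - 1) - 1))) * ‖w‖ ^ (n - 1)) ∧
      -- all orders: `k + 1` iterates of the critical point give `w ^ (n ^ k)`
      (∀ (k : ℕ) (w : ℂ), 1 < ‖w‖ → ∃ g : ℂ,
        (fun z : ℂ => z ^ n + ψ w)^[k + 1] 0 = w ^ (n ^ k) * Complex.exp g ∧
        -((k + 1) * (Real.log n + 5) / (n - 1)) ≤ g.re ∧ g.re ≤ Real.log 2 / (n - 1) ∧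
        ‖g‖ ≤ 4 / Real.pi * ((k + 1) * (Real.log n + 5) / (n - 1)) *
          Real.log (‖w‖ ^ (n ^ (k + 1) - 1) / (‖w‖ ^ (n ^ (k + 1) - 1) - 1))) := by
  obtain ⟨β, hβ⟩ := exists_beta (d := n) hn
  refine ⟨⟨_, exteriorMap_of_beta hβ⟩, fun ψ hψ => ⟨fun w hw => ?_, ?_, fun w hw => ?_,
    fun k w hw => ?_⟩⟩
  · exact Pool.Agent.R240.Ext.near_id hn hψ hw
  · exact Pool.Agent.R240.Ext.sharp hn hψ
  · exact Pool.Agent.R240.Ext.blowup hn hψ hw
  · exact Pool.Agent.R240.Ext.orders hn hψ k hw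

end Pool.Agent.Results.MP_fcb70f_an.ExteriorMaps
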