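import Mathlib
import Pool.Prelude.Def_F_c31e40fa
import Pool.Agent.R240.Coarse

set_option autoImplicit false

open N62a1eb23

namespace Pool.Agent.Results.MP_fcb70f_an.SharpCoarseLC

/-- **Coarse local connectivity of all Multibrot sets with the sharp constant.** -/
theorem result :
    -- two points `x`, `y` of `M_n` are joined by a continuum in `M_n` whose diameter is at most
    -- `(1 + o(1)) |x - y| + (log n + 28) / (n - 1)`
    (∀ n : ℕ, 2 ≤ n → ∀ x ∈ multibrotSet n, ∀ y ∈ multibrotSet n,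
      ∃ S : Set ℂ, S ⊆ multibrotSet n ∧ IsCompact S ∧ IsConnected S ∧ x ∈ S ∧ y ∈ S ∧
        Metric.diam S ≤ (1 + 4 * ((Real.log n + 2) / ((n : ℝ) - 1))) * dist x y +
          (Real.log n + 28) / ((n : ℝ) - 1)) ∧
    -- the term `log n / (n - 1)` is optimal up to `O(1 / n)`: there are points `x`, `y` of `M_n` at
    -- distance at most `2 π / (n - 1)` such that every connected subset of `M_n` which contains them
    -- has at least the diameter `log n / (n - 1) - (log n / (n - 1)) ^ 2 / 2`
    (∀ n : ℕ, 3 ≤ n → ∃ x ∈ multibrotSet n, ∃ y ∈ multibrotSet n,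
      dist x y ≤ 2 * Real.pi / ((n : ℝ) - 1) ∧
        ∀ S ⊆ multibrotSet n, IsPreconnected S → x ∈ S → y ∈ S →
          Real.log n / ((n : ℝ) - 1) - Real.log n ^ 2 / (2 * ((n : ℝ) - 1) ^ 2) ≤
            Metric.diam S) :=
  ⟨fun _ hn _ hx _ hy => Pool.Agent.R240.Coarse.upper hn hx hy,
    fun _ hn => Pool.Agent.R240.Coarse.lower hn⟩

end Pool.Agent.Results.MP_fcb70f_an.SharpCoarseLC
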