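import Mathlib
import Pool.Prelude.Def_F_c31e40fa
import Pool.Agent.R240.Slim

set_option autoImplicit false

open Filter Topology Set Metric MeasureTheory Complex N62a1eb23

namespace Pool.Agent.Results.MP_fcb70f_an.SlimParameters

open Pool.Agent.H713R2

/-- The angles `t ∈ (0, 2π]` of the external rays landing at distance less than `r` from `c₀`. -/
def angles (ψ : ℂ → ℂ) (c₀ : ℂ) (r : ℝ) : Set ℝ :=
  {t | t ∈ Ioc 0 (2 * Real.pi) ∧ ∃ ζ ∈ ball c₀ r,
    Tendsto (fun ρ : ℝ => ψ (ρ * exp (t * I))) (𝓝[>] 1) (𝓝 ζ)}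

/-- The harmonic measure (from infinity) of the disc of radius `r`, up to the factor `2π`. -/
noncomputable def harm (ψ : ℂ → ℂ) (c₀ : ℂ) (r : ℝ) : ℝ := (volume (angles ψ c₀ r)).toReal

/-- The maximum over a disc of Green's function of the complement of the Multibrot set: Green's
function is `log ‖w‖` at the point `ψ w`. -/
noncomputable def green (ψ : ℂ → ℂ) (c₀ : ℂ) (r : ℝ) : ℝ :=
  sSup {x | ∃ w : ℂ, 1 < ‖w‖ ∧ ‖ψ w - c₀‖ ≤ r ∧ Real.log ‖w‖ = x}

/-- The derivative at `c₀` of the `n`-th iterate of the critical point as a function of the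
parameter. -/
noncomputable def D' (d : ℕ) (c₀ : ℂ) (n : ℕ) : ℝ :=
  ‖deriv (fun c : ℂ => (fun z : ℂ => z ^ d + c)^[n] 0) c₀‖

/-- `g` is proper of degree at most `d` from the bounded open set `U` onto a set which contains the
closure of `U`. Polynomial-like maps of degree `d` have this property. -/
def PolynomialLike (d : ℕ) (g : ℂ → ℂ) (U : Set ℂ) : Prop :=
  IsOpen U ∧ Bornology.IsBounded U ∧ closure U ⊆ g '' U ∧
    (∀ K ⊆ g '' U, IsCompact K → IsCompact {z | z ∈ U ∧ g z ∈ K}) ∧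
    ∀ w ∈ g '' U, {z | z ∈ U ∧ g z = w}.encard ≤ d

/-- `z ↦ z ^ d + c` is renormalizable of period `p`. -/
def Renormalizable (d : ℕ) (c : ℂ) (p : ℕ) : Prop :=
  ∃ U : Set ℂ, PolynomialLike d ((fun z : ℂ => z ^ d + c)^[p]) U ∧ (0 : ℂ) ∈ U ∧
    ∀ n : ℕ, 1 ≤ n → (fun z : ℂ => z ^ d + c)^[n * p] 0 ∈ U

/-- Slim parameters. For `p = 1` and for every period `p` of renormalization: the harmonic measure
and Green's function of the disc of radius `r` about `c` are less than `r ^ κ` for small `r`, for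
every `κ < p`, and the exponential rate of growth of the derivatives with respect to the parameter is
at most `log d / p`. -/
def Slim (d : ℕ) (ψ : ℂ → ℂ) (c : ℂ) : Prop :=
  ∀ p : ℕ, 1 ≤ p → (p = 1 ∨ Renormalizable d c p) →
    (∀ κ : ℝ, 0 < κ → κ < p → ∀ᶠ r : ℝ in 𝓝[>] 0, harm ψ c r < r ^ κ ∧ green ψ c r < r ^ κ) ∧
    ∀ a : ℝ, Real.log d / p < a → ∀ᶠ n : ℕ in atTop, D' d c n < Real.exp (a * n)

/-- `K` is locally connected at `c` in the weak sense (connected im kleinen): the points of `K`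
close to `c` are joined to `c` by small connected subsets of `K`. -/
def LocallyConnectedAt (K : Set ℂ) (c : ℂ) : Prop :=
  ∀ ε : ℝ, 0 < ε → ∃ δ : ℝ, 0 < δ ∧ ∀ q ∈ K, dist q c < δ →
    ∃ C ⊆ K ∩ ball c ε, IsPreconnected C ∧ c ∈ C ∧ q ∈ C

/-- **Local connectivity is decided at the slim parameters.** If the Multibrot set is not locally
connected then there are a point `p` and a radius `ε` such that almost every circle of radius less
than `ε` about `p` contains a slim parameter at which it is not locally connected. -/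
theorem result (d : ℕ) (hd : 3 ≤ d) :
    (∃ ψ : ℂ → ℂ, IsExteriorMap (multibrotSet d) ψ) ∧
    ∀ ψ : ℂ → ℂ, IsExteriorMap (multibrotSet d) ψ →
      (LocallyConnectedSpace (multibrotSet d) ↔
        ∀ c ∈ frontier (multibrotSet d), Slim d ψ c → LocallyConnectedAt (multibrotSet d) c) ∧
      (¬ LocallyConnectedSpace (multibrotSet d) →
        ∃ p ∈ multibrotSet d, ∃ ε : ℝ, 0 < ε ∧ ∀ᵐ s : ℝ, 0 < s → s < ε →
          ∃ c ∈ frontier (multibrotSet d), dist c p = s ∧ Slim d ψ c ∧
            ¬ LocallyConnectedAt (multibrotSet d) c) := by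
  have hd2 : 2 ≤ d := by omega
  obtain ⟨β, hβ⟩ := exists_beta (d := d) hd2
  refine ⟨⟨_, exteriorMap_of_beta hβ⟩, ?_⟩
  intro ψ hψ
  exact Pool.Agent.R240.Slim.final hd2 hψ

end Pool.Agent.Results.MP_fcb70f_an.SlimParameters
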